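import Pool.Agent.N874.JM.Stm
import Pool.Agent.N227.PJ.Par

/-!
# Project JM (helper874): parity at an inert prime, all genera
-/

set_option autoImplicit false
set_option linter.all false

open Polynomial IsDedekindDomain WithZero UniqueFactorizationMonoid
open scoped Classical

namespace Pool.Agent.N738.JM

open Pool.Agent.N352.PJ
open Pool.Agent.N227.PJ
open Pool.Agent.N874.PP (Ov Ev Sq1 U0)
open Pool.Agent.N862.PP (algL_inj algO_inj isInt cn)

section

variable {k K L O : Type} [Field k] [Field K] [Algebra k[X] K] [IsFractionRing k[X] K]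
  [Field L] [Algebra K L] [Algebra k[X] L] [IsScalarTower k[X] K L] [CommRing O]
  [IsDedekindDomain O] [Algebra O L] [IsFractionRing O L] [Algebra k[X] O]
  [IsScalarTower k[X] O L] [IsIntegralClosure O k[X] L] {g : ℕ} {f : k[X][X]} {θ : L}

/-- The only prime over `P` is `P O`. -/
theorem eq_span (h : IsGen g K f θ)
    (hI : ∀ x : L, IsIntegral k[X] x ↔ ∃ v : Fin (2 * g + 1) → k[X], Crd g θ v x)
    {t : O} (ht : algebraMap O L t = θ) {P : k[X]} (hP : Irreducible P)
    (hirr : Irreducible (f.map (Ideal.Quotient.mk (Ideal.span {P}))))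
    {𝔓 : HeightOneSpectrum O} (hov : Ov P 𝔓) :
    𝔓.asIdeal = Ideal.span {algebraMap k[X] O P} := by
  have hmax : (Ideal.span {P} : Ideal k[X]).IsMaximal :=
    PrincipalIdealRing.isMaximal_of_irreducible hP
  letI : Field (k[X] ⧸ Ideal.span {P}) := Ideal.Quotient.field _
  have hpr : 𝔓.asIdeal.IsPrime := 𝔓.isPrime
  haveI : Nontrivial (O ⧸ 𝔓.asIdeal) := Ideal.Quotient.nontrivial_iff.mpr hpr.ne_top
  have hle : (Ideal.span {P} : Ideal k[X]) ≤ 𝔓.asIdeal.comap (algebraMap k[X] O) := by
    rw [Ideal.span_singleton_le_iff_mem]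
    exact hov
  let ι : (k[X] ⧸ Ideal.span {P}) →+* (O ⧸ 𝔓.asIdeal) :=
    Ideal.quotientMap 𝔓.asIdeal (algebraMap k[X] O) hle
  have hι : ι.comp (Ideal.Quotient.mk (Ideal.span {P})) =
      (Ideal.Quotient.mk 𝔓.asIdeal).comp (algebraMap k[X] O) := by
    ext x <;> simp [ι, Ideal.quotientMap_mk]
  -- evaluation at `t`
  have hev : ∀ p : k[X][X], (p.map (Ideal.Quotient.mk (Ideal.span {P}))).eval₂ ι
      (Ideal.Quotient.mk 𝔓.asIdeal t) = Ideal.Quotient.mk 𝔓.asIdeal (aeval t p) := by
    intro p
    rw [eval₂_map, hι, aeval_def, hom_eval₂]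
  have hft : aeval t f = 0 := by
    apply IsFractionRing.injective O L
    rw [map_zero, ← aeval_algebraMap_apply, ht]
    exact h.root
  refine le_antisymm ?_ ?_
  · intro z hz
    obtain ⟨v, hv⟩ := (hI _).1 (isInt (L := L) z)
    have h1 : z = ∑ i, v i • t ^ (i : ℕ) := by
      apply IsFractionRing.injective O L
      rw [sum_t ht]
      exact hv
    set p : k[X][X] := ∑ i : Fin (2 * g + 1), C (v i) * X ^ (i : ℕ) with hp
    have hpt : aeval t p = z := by
      rw [hp, map_sum, h1]
      refine Finset.sum_congr rfl fun i _ => ?_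
      rw [map_mul, map_pow, aeval_C, aeval_X, Algebra.smul_def]
    have hpd : p.natDegree < 2 * g + 1 := by
      refine lt_of_le_of_lt (natDegree_sum_le_of_forall_le (n := 2 * g) _ _ fun i _ => ?_) (by omega)
      refine (natDegree_C_mul_X_pow_le _ _).trans ?_
      have := i.2
      omega
    have hdvd : f.map (Ideal.Quotient.mk (Ideal.span {P})) ∣
        p.map (Ideal.Quotient.mk (Ideal.span {P})) := by
      by_contra hnd
      obtain ⟨a, b, hab⟩ := (hirr.coprime_iff_not_dvd).2 hnd
      have h2 := congrArg (fun q => q.eval₂ ι (Ideal.Quotient.mk 𝔓.asIdeal t)) hab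
      simp only [eval₂_add, eval₂_mul, eval₂_one, hev, hft, hpt, map_zero, mul_zero, zero_add] at h2
      rw [Ideal.Quotient.eq_zero_iff_mem.mpr hz, mul_zero] at h2
      exact zero_ne_one h2
    have hz0 : p.map (Ideal.Quotient.mk (Ideal.span {P})) = 0 := by
      refine eq_zero_of_dvd_of_natDegree_lt hdvd ?_
      rw [h.mon.natDegree_map, h.deg]
      exact lt_of_le_of_lt natDegree_map_le hpd
    have hPv : ∀ i, P ∣ v i := by
      intro i
      have h3 := congrArg (fun q => q.coeff (i : ℕ)) hz0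
      simp only [coeff_map, coeff_zero] at h3
      have h4 : p.coeff (i : ℕ) = v i := by
        rw [hp, finset_sum_coeff]
        rw [Finset.sum_eq_single i]
        · rw [coeff_C_mul, coeff_X_pow, if_pos rfl, mul_one]
        · intro j _ hj
          rw [coeff_C_mul, coeff_X_pow, if_neg, mul_zero]
          exact fun h5 => hj (Fin.ext h5.symm)
        · intro h5
          exact absurd (Finset.mem_univ _) h5
      rw [h4, Ideal.Quotient.eq_zero_iff_mem, Ideal.mem_span_singleton] at h3
      exact h3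
    rw [h1]
    refine Ideal.sum_mem _ fun i _ => ?_
    obtain ⟨c, hc⟩ := hPv i
    rw [hc, Algebra.smul_def, map_mul, mul_assoc]
    exact Ideal.mul_mem_right _ _ (Ideal.mem_span_singleton_self _)
  · rw [Ideal.span_singleton_le_iff_mem]
    exact hov

end

/-- **P3.** -/
theorem p3 (hInt : Pool.Agent.N352.PJ.S_INT) : Pool.Agent.N874.JM.S_P3 := by
  intro g k K L O _ _ _ _ _ _ _ _ _ _ _ _ _ _ _ _ f θ h hsq P hP hirr x hx hnx 𝔓 hov
  have hI := hInt g k K L f θ h hsq
  obtain ⟨t, ht⟩ := exists_t (O := O) h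
  obtain ⟨b, hb⟩ := exists_bas h hI ht
  have hfin : Module.Finite k[X] O := Module.Finite.of_basis b
  have hfree : Module.Free k[X] O := Module.Free.of_basis b
  have htf : Module.IsTorsionFree k[X] O := Pool.Agent.N862.PP.tf_O (K := K) (L := L)
  have hspan : ∀ 𝔮 : HeightOneSpectrum O, Ov P 𝔮 →
      𝔮.asIdeal = Ideal.span {algebraMap k[X] O P} := fun 𝔮 hq => eq_span h hI ht hP hirr hq
  have hn : cn k[X] (Ideal.span {P}) (Ideal.span {algebraMap k[X] O P} : Ideal O) = 2 * g + 1 := by
    have hn1 : Algebra.intNorm k[X] O (algebraMap k[X] O P) = P ^ (2 * g + 1) := by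
      rw [Algebra.intNorm_eq_norm, Algebra.norm_algebraMap_of_basis b, Fintype.card_fin]
    have hirr : Irreducible (Ideal.span {P} : Ideal k[X]) :=
      (Ideal.prime_of_isPrime (by simpa using hP.ne_zero)
        ((Ideal.span_singleton_prime hP.ne_zero).mpr hP.prime)).irreducible
    unfold cn
    rw [Ideal.relNorm_singleton, hn1, ← Ideal.span_singleton_pow, normalizedFactors_pow,
      Multiset.count_nsmul, normalizedFactors_irreducible hirr, normalize_eq,
      Multiset.count_singleton_self, mul_one]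
  refine parity h hP 𝔓 hov ?_ hx hnx fun 𝔮 ho hne => ?_
  · rw [hspan 𝔓 hov, hn]
    exact odd_two_mul_add_one g
  · exact absurd (HeightOneSpectrum.ext ((hspan 𝔮 ho).trans (hspan 𝔓 hov).symm)) hne

end Pool.Agent.N738.JM
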